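import Pool.Agent.helper38.VA.Spec

/-!
# VA, row LGS: the Lie algebra of an abelian unipotent group (statement by helper38)
-/

set_option autoImplicit false

namespace Pool.Agent.VA

open Matrix Module Pool.Agent.PR Pool.Agent.H48SL

theorem LGS_c2 (hC2 : C2_stmt) (n : ℕ) : ∃ lg : MQ n → MQ n,
      (∀ U, IsNilpotent (U - 1) → IsNilpotent (lg U) ∧ IsNilpotent.exp (lg U) = U ∧
        ∀ X, X * U = U * X → X * lg U = lg U * X) ∧
      ∀ N, IsNilpotent N → lg (IsNilpotent.exp N) = N := by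
  have h := hC2 n ℚ
  exact h

/-- conjugation as a ring homomorphism -/
def LGS_hom {n : ℕ} (b : SLZ n) : MQ n →+* MQ n where
  toFun := cj b
  map_one' := by rw [cj_apply, Matrix.mul_one, stdM_mul_inv]
  map_mul' := cj_mul_apply b
  map_zero' := map_zero _
  map_add' := map_add _

theorem LGS (hC2 : C2_stmt) : LGS_stmt := by
  intro n N hnil hcomm
  obtain ⟨lg, h1, h2⟩ := LGS_c2 hC2 n
  obtain ⟨l, hl⟩ : ∃ l : SLZ n → MQ n, ∀ a, l a = lg (stdM ℚ a) := ⟨_, fun _ => rfl⟩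
  have ln : ∀ a ∈ N, IsNilpotent (l a) := fun a ha => by
    rw [hl]
    exact (h1 _ (hnil a ha)).1
  have le : ∀ a ∈ N, IsNilpotent.exp (l a) = stdM ℚ a := fun a ha => by
    rw [hl]
    exact (h1 _ (hnil a ha)).2.1
  have lc : ∀ a ∈ N, ∀ a' ∈ N, l a * l a' = l a' * l a := by
    intro a ha a' ha'
    have e1 : stdM ℚ a' * stdM ℚ a = stdM ℚ a * stdM ℚ a' := by
      rw [← stdM_mul, ← stdM_mul, hcomm a' ha' a ha]
    have e2 := (h1 _ (hnil a ha)).2.2 _ e1
    have e3 := (h1 _ (hnil a' ha')).2.2 _ e2.symm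
    rw [hl, hl]
    exact e3
  have lu : ∀ a ∈ N, ∀ X, IsNilpotent X → IsNilpotent.exp X = stdM ℚ a → X = l a := by
    intro a _ X hX h
    rw [hl, ← h, h2 X hX]
  have ladd : ∀ a ∈ N, ∀ a' ∈ N, l a + l a' = l (a * a') := by
    intro a ha a' ha'
    have hc : Commute (l a) (l a') := lc a ha a' ha'
    refine lu _ (N.mul_mem ha ha') _ (hc.isNilpotent_add (ln a ha) (ln a' ha')) ?_
    rw [IsNilpotent.exp_add_of_commute hc (ln a ha) (ln a' ha'), le a ha, le a' ha', stdM_mul]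
  have lone : l 1 = 0 := by
    refine (lu 1 N.one_mem 0 IsNilpotent.zero ?_).symm
    rw [IsNilpotent.exp_zero, stdM_one]
  have linv : ∀ a ∈ N, l a⁻¹ = -l a := by
    intro a ha
    have := ladd a ha a⁻¹ (N.inv_mem ha)
    rw [mul_inv_cancel, lone] at this
    exact (neg_eq_of_add_eq_zero_right this).symm
  have lpow : ∀ a ∈ N, ∀ m : ℕ, l (a ^ m) = (m : ℚ) • l a := by
    intro a ha m
    induction m with
    | zero => rw [pow_zero, lone, Nat.cast_zero, zero_smul]
    | succ m ih =>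
      rw [pow_succ, ← ladd _ (N.pow_mem ha m) a ha, ih, Nat.cast_succ, add_smul, one_smul]
  have lzpow : ∀ a ∈ N, ∀ m : ℤ, l (a ^ m) = (m : ℚ) • l a := by
    intro a ha m
    cases m with
    | ofNat k =>
      rw [Int.ofNat_eq_natCast, zpow_natCast, lpow a ha, Int.cast_natCast]
    | negSucc k =>
      rw [zpow_negSucc, linv _ (N.pow_mem ha _), lpow a ha, Int.cast_negSucc, neg_smul]
  have key : ∀ X ∈ Submodule.span ℚ (l '' (N : Set (SLZ n))),
      ∃ k : ℕ, 0 < k ∧ ∃ a ∈ N, (k : ℚ) • X = l a := by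
    intro X hX
    induction hX using Submodule.span_induction with
    | mem x hx =>
      obtain ⟨a, ha, rfl⟩ := hx
      exact ⟨1, one_pos, a, ha, by rw [Nat.cast_one, one_smul]⟩
    | zero => exact ⟨1, one_pos, 1, N.one_mem, by rw [smul_zero, lone]⟩
    | add x y _ _ hx hy =>
      obtain ⟨k, hk, a, ha, e⟩ := hx
      obtain ⟨k', hk', a', ha', e'⟩ := hy
      refine ⟨k * k', Nat.mul_pos hk hk', a ^ k' * a' ^ k,
        N.mul_mem (N.pow_mem ha _) (N.pow_mem ha' _), ?_⟩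
      rw [← ladd _ (N.pow_mem ha _) _ (N.pow_mem ha' _), lpow a ha, lpow a' ha', ← e, ← e',
        smul_add, smul_smul, smul_smul, Nat.cast_mul, mul_comm (k' : ℚ) (k : ℚ)]
    | smul q x _ hx =>
      obtain ⟨k, hk, a, ha, e⟩ := hx
      refine ⟨k * q.den, Nat.mul_pos hk q.den_pos, a ^ q.num, N.zpow_mem ha _, ?_⟩
      rw [lzpow a ha, ← e, smul_smul, smul_smul]
      congr 1
      have hq : q * q.den = q.num := Rat.mul_den_eq_num q
      rw [Nat.cast_mul]
      linear_combination (k : ℚ) * hq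
  have key2 : ∀ X ∈ Submodule.span ℚ (l '' (N : Set (SLZ n))),
      ∃ c : ℚ, ∃ a ∈ N, X = c • l a := by
    intro X hX
    obtain ⟨k, hk, a, ha, e⟩ := key X hX
    have hk0 : (k : ℚ) ≠ 0 := Nat.cast_ne_zero.2 hk.ne'
    exact ⟨(k : ℚ)⁻¹, a, ha, by rw [← e, smul_smul, inv_mul_cancel₀ hk0, one_smul]⟩
  refine ⟨Submodule.span ℚ (l '' (N : Set (SLZ n))), ?_, ?_, ?_, ?_, ?_⟩
  · intro X hX
    obtain ⟨c, a, ha, rfl⟩ := key2 X hX
    exact (ln a ha).smul c
  · intro X hX Y hY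
    obtain ⟨c, a, ha, rfl⟩ := key2 X hX
    obtain ⟨c', a', ha', rfl⟩ := key2 Y hY
    rw [smul_mul_smul_comm, smul_mul_smul_comm, lc a ha a' ha', mul_comm c c']
  · intro X hX
    obtain ⟨k, hk, a, ha, e⟩ := key X hX
    exact ⟨k, hk, a, ha, by rw [e, le a ha]⟩
  · intro a ha
    exact ⟨l a, Submodule.subset_span ⟨a, ha, rfl⟩, (le a ha).symm⟩
  · intro b hb
    have hsub : Submodule.span ℚ (l '' (N : Set (SLZ n))) ≤
        (Submodule.span ℚ (l '' (N : Set (SLZ n)))).comap (cj b) := by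
      rw [Submodule.span_le]
      rintro _ ⟨a, ha, rfl⟩
      change cj b (l a) ∈ Submodule.span ℚ (l '' (N : Set (SLZ n)))
      have e : cj b (l a) = l (b * a * b⁻¹) := by
        refine lu _ (hb a ha) _ ((ln a ha).map (LGS_hom b)) ?_
        have h3 := IsNilpotent.map_exp (ln a ha) (LGS_hom b)
        change cj b (IsNilpotent.exp (l a)) = IsNilpotent.exp (cj b (l a)) at h3
        rw [← h3, le a ha, cj_apply, stdM_mul, stdM_mul]
      rw [e]
      exact Submodule.subset_span ⟨_, hb a ha, rfl⟩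
    intro X hX
    exact hsub hX

end Pool.Agent.VA
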